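import Pool.Agent.U115.XP.Asm
import Pool.Agent.Y682.XF.Uniq
import Pool.Agent.Y688.XD.Hecke
import Pool.Agent.Y461.XD.Apev
import Pool.Agent.Y758.XD.NZ
import Pool.Agent.Y109.XF.LF
import Pool.Agent.Y954.XF.LKD
import Pool.Agent.Y682.XF.Trd
import Pool.Agent.Y812.XF.HtKd
import Pool.Agent.Y44.XF.Prim
import Pool.Agent.Y44.XF.Mind
import Pool.Agent.Y641.XF.Tam
import Pool.Agent.Y813.XF.TamD
import Pool.Agent.Y665.XF.Tord
import Pool.Agent.Y614.XF.Perd
import Pool.Agent.Y532.XF.Ch
import Pool.Agent.Y686.XF.Reg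
import Pool.Agent.Y514.XF.Qval
import Pool.Agent.Y31.XF.Inz
import Pool.Agent.Y697.XF.Regu
import Pool.Agent.U115.XP.Dens

/-!
# The Birch and Swinnerton-Dyer formula modulo two for quadratic twists of `X_0(14)`, with both directions

`E_D` is the quadratic twist by `D` of the modular curve `X_0(14)` (an elliptic curve without complex
multiplication). `D > 1` is squarefree, and its prime factors are inert (`5` modulo `8` and not squares
modulo `7`), any number of them, or split (`1` modulo `8` and squares modulo `7`), at most two of them.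
No condition on the rank, on the Tate-Shafarevich group or on the vanishing of the `L`-function is supposed.

The formula predicts that `z = L(E_D, 1) #E_D(ℚ)_tors² / (Ω ∏ c_p)` is the integer `#Ш(E_D/ℚ)` if
`E_D(ℚ)` is finite and `0` otherwise. The theorem is this prediction modulo two:

* `z` is a rational number with odd denominator;
* the numerator of `z` is odd if and only if `E_D(ℚ)` is finite and `Ш(E_D/ℚ)[2^∞] = 0` (that is, the
  order of `Ш`, if finite, is odd); so `z` is even, in the ring of rational numbers with odd denominator, if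
  and only if `E_D(ℚ)` is infinite or `Ш(E_D/ℚ)[2] ≠ 0`;
* both are equivalent to `det mat(D) ≠ 0` for an explicit matrix over the field with two elements.

The same is true over the fields `K` of odd degree as in the starting file `AllTwistsOddDegree` in which
the prime factors of `D` are inert, and, if no prime factor is `±1` modulo `9`, over all the layers of the
cyclotomic `ℤ₃`-extension of `ℚ`, with `z = L(E_D/K, 1) √|Δ_K| #E_D(K)_tors² / (Ω Tam)`.

The file `SplitPrimesTwoPart` has the 2-part of the conjecture if the matrix is nonsingular. New here are the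
singular matrices: the value `z` is even, and the group `E_D(ℚ)` is infinite or `Ш[2] ≠ 0`.

Proof.
* Analytic side: the sum of the modular symbols with the quadratic character of `D` is `2 ^ e o` with the
  exponent `e` of the Tamagawa numbers, and the parity of the integer `o` is computed for all `D` of the
  class (`U115/XP/VP`, from the recurrences of `Y687`); periods, Tamagawa numbers and torsion (`AnQ`,
  `AnK`).
* Algebraic side: both descents by the isogenies of degree two and everywhere locally soluble coverings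
  (`U115/XP/Sel`, `Bound`, `LocI`, `Conv`, `Fin`).
-/

set_option autoImplicit false

set_option linter.style.haveILetI false

open NumberField NumberField.InfinitePlace IsDedekindDomain WeierstrassCurve MeasureTheory Filter
  Topology

namespace Pool.Agent.Results.MP_9c97e9_nt.FormulaModTwoX14

open scoped Classical

open Pool.Agent.TH841.NF.D (Sha)

open Pool.Agent.Y682 (NCl)

/-- The quadratic twist `E_D` of `X_0(14)` (`D = 1` modulo `4`), with its global minimal equation
`y² + x y + y = x³ + ((D - 1)/4) x² + ((9 D² - 1)/2) x - (23 D³ + 1)/4`.  It is isomorphic to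
`Y² = X (X² + 13 D X + 128 D²)` by `X = 4 (x - D)`, `Y = 4 (2 y + x + 1)`. -/
def twist (D : ℤ) : WeierstrassCurve ℤ :=
  ⟨1, (D - 1) / 4, 1, (9 * D ^ 2 - 1) / 2, -((23 * D ^ 3 + 1) / 4)⟩

/-- The curve given by the equation of `W` over the ring `R`. -/
abbrev base (W : WeierstrassCurve ℤ) (R : Type) [CommRing R] : WeierstrassCurve R :=
  W.map (Int.castRingHom R)

/-- The number of the affine points `(x, y)` over the ring `R`. -/
noncomputable def pts (W : WeierstrassCurve ℤ) (R : Type) [CommRing R] : ℕ :=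
  Nat.card {P : R × R // (base W R).toAffine.Equation P.1 P.2}

section

variable {K : Type} [Field K] [NumberField K]

/-- `a_v = N v + 1 - #W(k_v)`, the points over the residue field `k_v` counted with the point at
infinity. -/
noncomputable def a (W : WeierstrassCurve ℤ) (v : HeightOneSpectrum (𝓞 K)) : ℤ :=
  (Ideal.absNorm v.asIdeal : ℤ) - pts W (𝓞 K ⧸ v.asIdeal)

/-- The Euler factor of `L(W/K, s)` at `v` : `(1 - a_v N v^(-s) + N v^(1 - 2 s))⁻¹` if the
discriminant is a unit at `v`, and `(1 - a_v N v^(-s))⁻¹` otherwise. -/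
noncomputable def factor (W : WeierstrassCurve ℤ) (s : ℂ) (v : HeightOneSpectrum (𝓞 K)) : ℂ :=
  (1 - (a W v : ℂ) * (Ideal.absNorm v.asIdeal : ℂ) ^ (-s) +
    if ((W.Δ : ℤ) : 𝓞 K) ∈ v.asIdeal then 0 else (Ideal.absNorm v.asIdeal : ℂ) ^ (1 - 2 * s))⁻¹

/-- The equation is minimal at the finite place `v` of `K`: no change of variables over `K` that
keeps the coefficients integral at `v` decreases the valuation of the discriminant. -/
def MinimalAt (W : WeierstrassCurve ℤ) (v : HeightOneSpectrum (𝓞 K)) : Prop :=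
  ∀ C : VariableChange K, v.valuation K (C • base W K).a₁ ≤ 1 →
    v.valuation K (C • base W K).a₂ ≤ 1 → v.valuation K (C • base W K).a₃ ≤ 1 →
    v.valuation K (C • base W K).a₄ ≤ 1 → v.valuation K (C • base W K).a₆ ≤ 1 →
    v.valuation K (C • base W K).Δ ≤ v.valuation K (base W K).Δ

/-- `E⁰(K_v)`, the group of the points of `W` over the completion `K_v` with nonsingular reduction:
the points `(x, y)` where `x` is not integral, or one of the partial derivatives of
`y² + a₁ x y + a₃ y - x³ - a₂ x² - a₄ x - a₆` is a unit at `(x, y)`, and the point at infinity. -/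
noncomputable def nonsing (W : WeierstrassCurve ℤ) (v : HeightOneSpectrum (𝓞 K)) :
    AddSubgroup (base W (v.adicCompletion K)).toAffine.Point :=
  AddSubgroup.closure {P | ∀ x y h, P = Affine.Point.some x y h →
    1 < Valued.v x ∨ Valued.v (W.a₁ * y - (3 * x ^ 2 + 2 * W.a₂ * x + W.a₄)) = 1 ∨
      Valued.v (2 * y + W.a₁ * x + W.a₃) = 1}

/-- The Tamagawa number `c_v = [E(K_v) : E⁰(K_v)]` of a minimal equation. -/
noncomputable def c (W : WeierstrassCurve ℤ) (v : HeightOneSpectrum (𝓞 K)) : ℕ :=
  (nonsing W v).index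

end

section

variable (K : Type) [Field K] [NumberField K]

/-- The product of the Tamagawa numbers. -/
noncomputable def Tam (W : WeierstrassCurve ℤ) : ℕ := ∏ᶠ v : HeightOneSpectrum (𝓞 K), c W v

/-- The 2-primary part of the Tate-Shafarevich group over `K`. -/
noncomputable abbrev Sha2 (W : WeierstrassCurve ℤ) : AddSubgroup (Sha (base W K)) :=
  AddCommGroup.primaryComponent (Sha (base W K)) 2

/-- The torsion points over `K`. -/
def tors (W : WeierstrassCurve ℤ) : Set (base W K).toAffine.Point := {P | ∃ n : ℕ, 0 < n ∧ n • P = 0}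

end

/-- `4 x³ + b₂ x² + 2 b₄ x + b₆ = (2 y + a₁ x + a₃)²`, where `b₂ = a₁² + 4 a₂`,
`b₄ = 2 a₄ + a₁ a₃`, `b₆ = a₃² + 4 a₆`. -/
def cubic (W : WeierstrassCurve ℤ) {R : Type} [CommRing R] (x : R) : R :=
  4 * x ^ 3 + W.b₂ * x ^ 2 + 2 * W.b₄ * x + W.b₆

/-- `∫_{W(ℝ)} |ω|` with `ω = dx / (2 y + a₁ x + a₃)`, as an integral over `x`: two real points lie
over each `x` with `cubic x > 0`. -/
noncomputable def realPeriod (W : WeierstrassCurve ℤ) : ℝ :=
  2 * ∫ x in {x : ℝ | 0 < cubic W x}, 1 / √(cubic W x)

/-- `2 ∫_{W(ℂ)} |ω ∧ ω̄|`, where `|ω ∧ ω̄| = du dv` in a local parameter `z = u + i v` with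
`dz = ω`, as an integral over `x`: two points lie over a general `x`, and `|ω ∧ ω̄|` is the area
element of the plane of `x` divided by `|cubic x|`. -/
noncomputable def complexPeriod (W : WeierstrassCurve ℤ) : ℝ := 2 * (2 * ∫ x : ℂ, 1 / ‖cubic W x‖)

/-- The global period of an equation that is minimal at all finite places. -/
noncomputable def Omega (K : Type) [Field K] [NumberField K] (W : WeierstrassCurve ℤ) : ℝ :=
  realPeriod W ^ nrRealPlaces K * complexPeriod W ^ nrComplexPlaces K

/-- `z` is `L(W/K, 1) √|Δ_K| #E(K)_tors² / (Ω Tam)`, the value at `1` of the entire function with the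
Euler product of `W` over `K`: the value that the formula predicts to be `#Ш` if `E(K)` is finite, and `0`
if `E(K)` is infinite. (`Ω`, `Tam` and the number of the torsion points are positive. For `K = ℚ`,
`Δ_K = 1`.) -/
def IsValue (K : Type) [Field K] [NumberField K] (W : WeierstrassCurve ℤ) (z : ℚ) : Prop :=
  ∃ L : ℂ → ℂ, Differentiable ℂ L ∧ (∀ s : ℂ, 3 / 2 < s.re → HasProd (factor (K := K) W s) (L s)) ∧
    0 < Omega K W ∧ 0 < Tam K W ∧ 0 < Nat.card (tors K W) ∧
    L 1 * ((√|(discr K : ℝ)| : ℝ) : ℂ) * (Nat.card (tors K W) : ℂ) ^ 2 =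
      (z : ℂ) * ((Omega K W : ℝ) : ℂ) * (Tam K W : ℂ)

/-- `W(K)` is finite and `Ш(W/K)[2^∞] = 0` -/
def Trivial (K : Type) [Field K] [NumberField K] (W : WeierstrassCurve ℤ) : Prop :=
  Finite (base W K).toAffine.Point ∧ Nat.card (Sha2 K W) = 1

/-- The formula modulo two for `W` over `K`: the equation is minimal at all the finite places, almost all
the Tamagawa numbers are `1`, the value `z` is a rational number with odd denominator, and its numerator is
odd if and only if `W(K)` is finite and `Ш(W/K)[2^∞] = 0`. -/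
def FormulaModTwo (K : Type) [Field K] [NumberField K] (W : WeierstrassCurve ℤ) : Prop :=
  (∀ v : HeightOneSpectrum (𝓞 K), MinimalAt W v) ∧
    {v : HeightOneSpectrum (𝓞 K) | c W v ≠ 1}.Finite ∧
    ∃ z : ℚ, IsValue K W z ∧ Odd z.den ∧ (Odd z.num ↔ Trivial K W)

/-- inert primes: `5` modulo `8` and not squares modulo `7` -/
def Inert (q : ℕ) : Prop := q.Prime ∧ q % 8 = 5 ∧ (q % 7 = 3 ∨ q % 7 = 5 ∨ q % 7 = 6)

/-- split primes: `1` modulo `8` and squares modulo `7` -/
def Split (p : ℕ) : Prop := p.Prime ∧ p % 8 = 1 ∧ (p % 7 = 1 ∨ p % 7 = 2 ∨ p % 7 = 4)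

/-- the split prime factors of `D` -/
noncomputable def split (D : ℕ) : Finset ℕ := D.primeFactors.filter fun p => p % 8 = 1

/-- the class: squarefree numbers `D > 1` with inert and at most two split prime factors -/
def Class (D : ℕ) : Prop := 1 < D ∧ Squarefree D ∧ (∀ p ∈ D.primeFactors, Split p ∨ Inert p) ∧
  (split D).card ≤ 2

/-- `1` if `m` is not a square modulo `p`, and `0` if it is -/
noncomputable def nonsq (p m : ℕ) : ZMod 2 := if IsSquare (m : ZMod p) then 0 else 1

/-- `1` if no root of `x² + 13 x + 128` modulo `p` is a square modulo `p`, and `0` otherwise -/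
noncomputable def theta (p : ℕ) : ZMod 2 :=
  if ∀ x : ZMod p, x ^ 2 + 13 * x + 128 = 0 → ¬ IsSquare x then 1 else 0

/-- The matrix over the field with two elements, with rows and columns indexed by the split prime
factors of `D`: the entry at `(i, j)` is `nonsq i j` for `i ≠ j`, and the entry at `(i, i)` is the sum
of `theta i` and of the `nonsq i l` for all the prime factors `l ≠ i` of `D`. -/
noncomputable def mat (D : ℕ) : Matrix (split D) (split D) (ZMod 2) := Matrix.of fun i j =>
  if i = j then theta i + ∑ l ∈ D.primeFactors.erase i, nonsq i l else nonsq i j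

/-- The formula modulo two for `E_D` over `K`, and the criterion. -/
def Holds (K : Type) [Field K] [NumberField K] (D : ℕ) : Prop :=
  FormulaModTwo K (twist D) ∧ (Trivial K (twist D) ↔ (mat D).det ≠ 0)

/-- The fields `K` of odd degree contained in the `q`-th cyclotomic field, `q` a power of a prime, prime
to `14`, in which the primes dividing `D` are inert, where `q` is a power of three, or `2` and `7` are
inert in `K` and the narrow class number of `K` is odd. -/
def OverOdd (D : ℕ) : Prop :=
  ∀ (q : ℕ) [NeZero q] (M : Type) [Field M] [NumberField M] [IsCyclotomicExtension {q} ℚ M]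
    (K : IntermediateField ℚ M), IsPrimePow q → q.Coprime 14 → Odd (Module.finrank ℚ K) →
    (3 ∣ q ∨ ((Ideal.span {((2 : ℕ) : 𝓞 K)}).IsPrime ∧
      (Ideal.span {((7 : ℕ) : 𝓞 K)}).IsPrime ∧ Odd (Nat.card (NCl K)))) →
    (∀ l : ℕ, l.Prime → l ∣ D → ¬ l ∣ q ∧ (Ideal.span {((l : ℕ) : 𝓞 K)}).IsPrime) →
    Holds K D

/-- All the layers of the cyclotomic `ℤ₃`-extension of `ℚ`: the subfields `K` of odd degree of the fields
of the roots of unity of order a power of three. -/
def OverTower (D : ℕ) : Prop :=
  ∀ (n : ℕ) (M : Type) [Field M] [NumberField M] [IsCyclotomicExtension {3 ^ (n + 1)} ℚ M]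
    (K : IntermediateField ℚ M), Odd (Module.finrank ℚ K) → Holds K D

/-- all the parts -/
theorem parts : Pool.Agent.Y682.XF.Parts where
  hecke := Pool.Agent.Y688.XD.s_hecke
  apev := Pool.Agent.Y461.XD.s_apev
  nz := Pool.Agent.Y758.XD.s_nz
  lkd := Pool.Agent.Y954.XF.s_lkd Pool.Agent.Y109.XF.t_LF
  trd := Pool.Agent.Y682.XF.s_trd
  kd := Pool.Agent.Y812.XF.t_KD
  prim := Pool.Agent.Y44.XF.s_prim
  mind := Pool.Agent.Y44.XF.s_mind
  tg := Pool.Agent.Y641.XF.s_tg
  t7 := Pool.Agent.Y641.XF.s_t7
  t2 := Pool.Agent.Y641.XF.s_t2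
  ti := Pool.Agent.Y641.XF.s_ti
  ts := Pool.Agent.Y641.XF.s_ts
  tamd := Pool.Agent.Y813.XF.s_tamd
  tord := Pool.Agent.Y665.XF.t_TORD
  perd := Pool.Agent.Y614.XF.perd
  ht := Pool.Agent.Y812.XF.t_HT
  ch := Pool.Agent.Y532.XF.t_ch
  reg := Pool.Agent.Y686.XF.t_REG
  qval := Pool.Agent.Y514.XF.s_qval
  inz := Pool.Agent.Y31.XF.s_inz


theorem theta_eq (p : ℕ) : theta p = Pool.Agent.U115.XP.theta p := by
  unfold theta Pool.Agent.U115.XP.theta Pool.Agent.Y687.Rt
  simp only [Nat.cast_one, mul_one, one_pow]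

theorem mat_eq {D : ℕ} : mat D =
    Pool.Agent.U115.XP.matF Pool.Agent.U115.XP.theta (Pool.Agent.U115.XP.ine D)
      (Pool.Agent.U115.XP.spl D) := by
  ext i j
  have hL : mat D i j = if i = j then theta i + ∑ l ∈ D.primeFactors.erase i, nonsq i l
    else nonsq i j := rfl
  have hR : Pool.Agent.U115.XP.matF Pool.Agent.U115.XP.theta (Pool.Agent.U115.XP.ine D)
      (Pool.Agent.U115.XP.spl D) i j = if (i : ℕ) = j then Pool.Agent.U115.XP.theta i +
        ∑ q ∈ Pool.Agent.U115.XP.ine D, Pool.Agent.Y698.SG.nq i q +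
        ∑ p ∈ (Pool.Agent.U115.XP.spl D).erase i, Pool.Agent.Y698.SG.nq i p
      else Pool.Agent.Y698.SG.nq i j := rfl
  rw [hL, hR]
  by_cases hij : i = j
  · rw [if_pos hij, if_pos (congrArg Subtype.val hij), theta_eq]
    have h1 : D.primeFactors.erase i =
        Pool.Agent.U115.XP.ine D ∪ (Pool.Agent.U115.XP.spl D).erase i := by
      have h2 : D.primeFactors = Pool.Agent.U115.XP.ine D ∪ Pool.Agent.U115.XP.spl D := by
        unfold Pool.Agent.U115.XP.ine Pool.Agent.U115.XP.spl
        rw [Finset.union_comm]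
        exact (Finset.filter_union_filter_not_eq _ _).symm
      conv_lhs => rw [h2]
      rw [Finset.erase_union_distrib, Finset.erase_eq_of_notMem
        (fun h => Finset.disjoint_left.1 (Pool.Agent.U115.XP.spl_ine D) h i.2)]
    rw [h1, Finset.sum_union (Finset.disjoint_of_subset_right (Finset.erase_subset _ _)
      (Pool.Agent.U115.XP.spl_ine D)), ← add_assoc]
    rfl
  · rw [if_neg hij, if_neg (fun h => hij (Subtype.ext h))]
    rfl

/-- the data -/
theorem dat {D : ℕ} (h : Class D) :
    Pool.Agent.U115.XP.Dat D (Pool.Agent.U115.XP.spl D) (Pool.Agent.U115.XP.ine D) := by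
  obtain ⟨h1, h2, h3, h4⟩ := h
  refine ⟨fun p hp => ?_, fun q hq => ?_, Pool.Agent.U115.XP.prod_eq h2, h1, h4⟩
  · obtain ⟨h5, h6⟩ := Finset.mem_filter.1 hp
    rcases h3 p h5 with h7 | h7
    · exact h7
    · have := h7.2.1
      omega
  · obtain ⟨h5, h6⟩ := Finset.mem_filter.1 hq
    rcases h3 q h5 with h7 | h7
    · exact absurd h7.2.1 h6
    · exact h7

theorem kap_iff {D : ℕ} (h : Class D) :
    Pool.Agent.U115.XP.kap (∏ q ∈ Pool.Agent.U115.XP.ine D, q) (Pool.Agent.U115.XP.spl D) = 1 ↔
      (mat D).det ≠ 0 := by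
  have hd := dat h
  rw [Pool.Agent.U115.XP.kap_eq hd.hb (fun q hq => (hd.hS q hq).1) rfl
    (Pool.Agent.U115.XP.spl_ine D), Pool.Agent.U115.XP.kap_one, mat_eq]
  exact Iff.rfl

theorem conv {D : ℕ} (h : Class D) {K : Type} [Field K] [NumberField K]
    (hC : Pool.Agent.U115.XP.Cl2 K (Pool.Agent.Y700.WM (D : ℤ))
      (Pool.Agent.U115.XP.kap (∏ q ∈ Pool.Agent.U115.XP.ine D, q) (Pool.Agent.U115.XP.spl D) = 1)) :
    Holds K D := by
  obtain ⟨h1, h2, ⟨z, hz, hz1, hz2⟩, h3⟩ := hC
  refine ⟨⟨h1, h2, z, hz, hz1, hz2.trans h3.symm⟩, ?_⟩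
  rw [← kap_iff h]
  exact h3

/-- **The formula of Birch and Swinnerton-Dyer modulo two for the quadratic twists of `X_0(14)`** by the
squarefree `D > 1` with inert and at most two split prime factors: over `ℚ`, over the fields `K` of odd
degree above, and, if no prime factor of `D` is `±1` modulo `9`, over all the layers of the cyclotomic
`ℤ₃`-extension, the value `z = L(E_D/K, 1) √|Δ_K| #E_D(K)_tors² / (Ω Tam)` is a rational number with odd
denominator, and its numerator is odd if and only if `E_D(K)` is finite and `Ш(E_D/K)[2^∞] = 0`, if and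
only if `det mat(D) ≠ 0`. -/
theorem result : ∀ D : ℕ, Class D →
    Holds ℚ D ∧ OverOdd D ∧
      ((∀ l : ℕ, l.Prime → l ∣ D → l % 9 ≠ 1 ∧ l % 9 ≠ 8) → OverTower D) := by
  intro D h
  have hd := dat h
  refine ⟨conv h (hd.overQ parts Pool.Agent.Y697.XF.t_REGU), ?_, ?_⟩
  · intro q _ M _ _ _ K hq hco hodd hcl hl
    exact conv h (hd.overK parts Pool.Agent.Y697.XF.t_REGU q hq hco M K hodd hcl hl).1
  · intro h9 n M _ _ _ K hodd
    exact conv h (hd.over3 parts Pool.Agent.Y697.XF.t_REGU h9 n M K hodd)

end Pool.Agent.Results.MP_9c97e9_nt.FormulaModTwoX14
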