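import Mathlib
import Pool.Agent.Y703.CT.T1d
import Pool.Agent.U687.PT.Law
import Pool.Agent.U687.PT.Up

/-!
# The `3`-part of the formula at the central point for prime twists of every member of a family

`E_N : y² + N y = x³` over `ℚ` is `3`-isogenous to the cubic twist `x³ + y³ = N`. Let `D` be ANY
cube-free number, prime to `3`, with exactly one prime divisor `q` which is `2` modulo `3` and with `k`
prime divisors which are `1` modulo `3` (nothing is assumed on the rank, on `Ш` or on the `L`-function of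
`E_D`), and let `j = 1, 4` or `7` be a residue class modulo `9` with `D j ≠ ±1` modulo `9` (two of the
three classes have this property). We consider the curves `E_{Dℓ}`, `ℓ` a prime, `ℓ = j` modulo `9`.

For `N = D ℓ`, `ℓ` not dividing `D`, the equation is globally minimal, `L(E_N, s)` is entire, and with
`L(E_N, 1) = u Ω ∏ c_p / #E_N(ℚ)_tors²` the number `u` is integral at `3`. The formula predicts
`u = #Ш` if `E_N(ℚ)` is finite and `u = 0` otherwise. The `3`-part of the formula holds with the value one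
for `N` (`One3 N`) if `u` is a unit at `3`, `E_N(ℚ)` is finite and `Ш(E_N)[3^∞] = 0`, and `N` is of the
other kind (`Other3 N`) if `u` is integral at `3` but not a unit, and `E_N(ℚ)` is infinite or
`Ш(E_N)[3^∞] ≠ 0`. All these `N` are of exactly one of the two kinds, and:

* the proportion of the primes `ℓ = j` modulo `9` for which the `3`-part of the formula holds with the
  value one for `E_{Dℓ}` tends to `c(D)`, the proportion of the nonsingular systems in the following
  family of `3 ^ (2 k + 1)` square systems of linear equations over the field with three elements: the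
  unknowns `g_r` and the equations are indexed by the prime divisors of `D`; the equation of a
  `p = 1` modulo `3` is `∑_r e_r λ_p(r) (g_r - g_p) = a_p g_p`, where `e_r` is the exponent of `r` in `D`,
  `λ_p` is the logarithm of the cubic residue symbol modulo `p` and `a_p` is arbitrary, and the equation
  of `q` is `∑_r e_r b_r g_r = 0`, the `b_r` being arbitrary;
* `(2 / 3) ^ (k + 1) ≤ c(D) ≤ 2 / 3`; in particular `c(D) = 2 / 3` if `D` is a prime or the square of a
  prime.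

So the `3`-part of the formula holds with the value one for a positive proportion of the prime twists of
EVERY member of the family.

The criterion for one `N` is that of the starting library (`MP_4a9ea6_nt.ThreePartCubicTwists`), and so
are the description of the system of `D ℓ`, by cubic reciprocity, as a diagonal perturbation and bordering
of the one of `D` by the symbols of `ℓ` (`Q283.TQ`), and the joint law of the cubic residue symbols of the
primary primes of `ℤ[ω]`, from the theorem of Chebotarev (`Q283.TC`). New are the number fields that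
contain the roots, the proportion and its lower bound.
-/

set_option autoImplicit false

open scoped Classical

namespace Pool.Agent.Results.MP_9c97e9_nt.ThreePartPrimeTwists

open Filter WeierstrassCurve
open Pool.Agent.W97.MT (ap IsGloballyMinimal)
open Pool.Agent.Y700 (Omega tam)
open Pool.Agent.TH841.SH.D (Sha)
open Pool.Agent.Y703.CX (lam)

/-- the equation `y² + N y = x³` over `ℤ` -/
def W (N : ℕ) : WeierstrassCurve ℤ := ⟨0, 0, (N : ℤ), 0, 0⟩

/-- the curve `E_N : y² + N y = x³` over `ℚ` -/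
def E (N : ℕ) : WeierstrassCurve ℚ := ⟨0, 0, (N : ℚ), 0, 0⟩

/-- `f` is the `L`-function of `E_N`: it is entire and equal to the Euler product for `Re s > 3/2` -/
def IsLFunction (N : ℕ) (f : ℂ → ℂ) : Prop :=
  Differentiable ℂ f ∧ ∀ s : ℂ, 3 / 2 < s.re →
    HasProd (fun p : Nat.Primes => (1 - (ap (W N) p : ℂ) * ((p : ℕ) : ℂ) ^ (-s) +
      (if ((p : ℕ) : ℤ) ∣ (W N).Δ then 0 else ((p : ℕ) : ℂ) ^ (1 - 2 * s)))⁻¹) (f s)

/-- the product `∏ c_p` of the Tamagawa numbers -/
noncomputable def tamagawa (N : ℕ) : ℕ :=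
  ∏ p ∈ (W N).Δ.natAbs.primeFactors, if h : p.Prime then (haveI := Fact.mk h; tam (W N) p) else 1

/-- `#E_N(ℚ)_tors` -/
noncomputable def torsion (N : ℕ) : ℕ := Nat.card (AddCommGroup.torsion (E N).toAffine.Point)

/-- `L(E_N, 1) = u Ω ∏ c_p / #E_N(ℚ)_tors²` -/
def Quotient (N : ℕ) (u : ℂ) : Prop :=
  ∃ f : ℂ → ℂ, IsLFunction N f ∧
    f 1 = u * (((Omega (W N) : ℝ) : ℂ) * (tamagawa N : ℂ) / (torsion N : ℂ) ^ 2)

/-- `u` is integral at all places above `3` -/
def Integral3 (u : ℂ) : Prop := ∃ n : ℤ, IsCoprime 3 n ∧ IsIntegral ℤ ((n : ℂ) * u)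

/-- `u` is a unit at all places above `3` -/
def Unit3 (u : ℂ) : Prop :=
  u ≠ 0 ∧ ∃ n : ℤ, IsCoprime 3 n ∧ IsIntegral ℤ ((n : ℂ) * u) ∧ IsIntegral ℤ ((n : ℂ) * u⁻¹)

/-- `E_N(ℚ)` is finite and `Ш(E_N/ℚ)[3^∞] = 0` -/
def Trivial3 (N : ℕ) : Prop :=
  Finite (E N).toAffine.Point ∧ ∀ (n : ℕ) (x : Sha (E N)), 3 ^ n • x = 0 → x = 0

/-- the `3`-part of the formula holds with the value one: `u` is a unit at `3`, and both `E_N(ℚ)` is
finite and `Ш(E_N/ℚ)[3^∞] = 0` -/
def One3 (N : ℕ) : Prop := ∃ u : ℂ, Quotient N u ∧ Unit3 u ∧ Trivial3 N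

/-- the other kind: `u` is integral at `3` but not a unit, and `E_N(ℚ)` is infinite or
`Ш(E_N/ℚ)[3^∞] ≠ 0` -/
def Other3 (N : ℕ) : Prop := ∃ u : ℂ, Quotient N u ∧ Integral3 u ∧ ¬ Unit3 u ∧ ¬ Trivial3 N

/-- the family: `D` cube-free, prime to `3`, exactly one prime factor congruent to `2` modulo `3` -/
def Family (D : ℕ) : Prop :=
  D ≠ 0 ∧ ¬ 3 ∣ D ∧ (∀ p : ℕ, p.Prime → ¬ p ^ 3 ∣ D) ∧
    ∃ q : ℕ, q.Prime ∧ q % 3 = 2 ∧ q ∣ D ∧ ∀ p : ℕ, p.Prime → p ∣ D → p ≠ q → p % 3 = 1

/-- the prime divisors of `D` which are `1` modulo `3` -/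
def S (D : ℕ) : Finset ℕ := D.primeFactors.filter fun p => p % 3 = 1

/-- the system with the parameters `a` (on the diagonal) and `b` (on the border) is nonsingular;
`lam p r` is the logarithm `c` of the cubic residue symbol `ω ^ c` of `r` modulo a fixed prime element
of norm `p` of `ℤ[ω]`, and `D.factorization r` is the exponent of `r` in `D` -/
def Nonsingular (D : ℕ) (a : S D → ZMod 3) (b : D.primeFactors → ZMod 3) : Prop :=
  ∀ g : D.primeFactors → ZMod 3,
    (∀ (p : S D) (gp : ZMod 3), (∀ h : (p : ℕ) ∈ D.primeFactors, gp = g ⟨p, h⟩) →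
      ∑ r : D.primeFactors, (D.factorization r : ZMod 3) * lam p r * (g r - gp) = a p * gp) →
    ∑ r : D.primeFactors, (D.factorization r : ZMod 3) * b r * g r = 0 → g = 0

/-- the proportion of the nonsingular systems -/
noncomputable def c (D : ℕ) : ℝ :=
  (Nat.card {x : (S D → ZMod 3) × (D.primeFactors → ZMod 3) // Nonsingular D x.1 x.2} : ℝ) /
    3 ^ (2 * (S D).card + 1)

/-- the number of the primes `ℓ ≤ X`, `ℓ = j` modulo `9`, with the property `P` -/
noncomputable def count (j : ℕ) (P : ℕ → Prop) (X : ℕ) : ℕ :=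
  ((Finset.Icc 1 X).filter fun l => l.Prime ∧ l % 9 = j ∧ P l).card

section proof

open Pool.Agent.U687.PT
open Q283.TQ (NSg mu Bs bs_mul)

theorem E_eq (N : ℕ) : Pool.Agent.Y703.CT.EQ (Pool.Agent.Y703.CT.WD N) = E N := by
  unfold Pool.Agent.Y703.CT.EQ Pool.Agent.Y703.CT.WD E WeierstrassCurve.map
  simp

theorem trivial_iff (N : ℕ) : Trivial3 N ↔ Pool.Agent.Y703.CT.Triv3 N := by
  unfold Trivial3 Pool.Agent.Y703.CT.Triv3
  rw [E_eq]

theorem torsion_eq (N : ℕ) : Pool.Agent.Y703.CT.tors N = torsion N := by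
  unfold Pool.Agent.Y703.CT.tors torsion
  rw [E_eq]

theorem kinds {N : ℕ} (hC : Pool.Agent.Y703.CT.Cls N) :
    IsGloballyMinimal (W N) ∧ ∃ u : ℂ, Quotient N u ∧ Integral3 u ∧ (Unit3 u ↔ Trivial3 N) := by
  obtain ⟨h1, f, h2, u, h3, h4, h5, -⟩ := Pool.Agent.Y703.CT.fin_all hC
  refine ⟨h1, u, ⟨f, h2, ?_⟩, h4, ?_⟩
  · rw [h3, torsion_eq]
    rfl
  · rw [trivial_iff]
    exact h5

theorem one_iff {N : ℕ} (hC : Pool.Agent.Y703.CT.Cls N) :
    One3 N ↔ Pool.Agent.Y703.CT.NoSplit N := by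
  obtain ⟨-, -, -, -, -, -, -, h6⟩ := Pool.Agent.Y703.CT.fin_all hC
  rw [← h6, ← trivial_iff]
  constructor
  · rintro ⟨u, -, -, h⟩
    exact h
  · intro h
    obtain ⟨-, u, h1, -, h3⟩ := kinds hC
    exact ⟨u, h1, h3.2 h, h⟩

theorem one_trivial {N : ℕ} (hC : Pool.Agent.Y703.CT.Cls N) : One3 N ↔ Trivial3 N := by
  obtain ⟨-, -, -, -, -, -, -, h6⟩ := Pool.Agent.Y703.CT.fin_all hC
  rw [one_iff hC, ← h6, ← trivial_iff]

theorem other_iff {N : ℕ} (hC : Pool.Agent.Y703.CT.Cls N) : Other3 N ↔ ¬ Trivial3 N := by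
  constructor
  · rintro ⟨u, -, -, -, h⟩
    exact h
  · intro h
    obtain ⟨-, u, h1, h2, h3⟩ := kinds hC
    exact ⟨u, h1, h2, fun h4 => h (h3.1 h4), h⟩

theorem bs {D : ℕ} (h : Family D) : Bs D := ⟨⟨h.1, h.2.1, h.2.2.1⟩, h.2.2.2⟩

theorem cls {D l j : ℕ} (hD : Family D) (hj : j = 1 ∨ j = 4 ∨ j = 7) (h1 : (D * j) % 9 ≠ 1)
    (h8 : (D * j) % 9 ≠ 8) (hl : l.Prime) (hlj : l % 9 = j) (hlD : ¬ l ∣ D) :
    Pool.Agent.Y703.CT.Cls (D * l) := by
  have hl1 : l % 3 = 1 := by rcases hj with rfl | rfl | rfl <;> omega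
  have h2 := bs_mul (bs hD) hl hl1 hlD
  have h3 : (D * l) % 9 = (D * j) % 9 := by rw [Nat.mul_mod, hlj, Nat.mul_mod D j, ← hlj, Nat.mod_mod]
  exact ⟨h2.1, by rw [h3]; exact h1, by rw [h3]; exact h8, h2.2⟩

theorem nonsingular_iff (D : ℕ) (a : S D → ZMod 3) (b : D.primeFactors → ZMod 3) :
    Nonsingular D a b ↔ NSg D (ext0 (S := S D) a) (ext0 b) := by
  have hS : ∀ (g : ℕ → ZMod 3) (F : ℕ → ZMod 3), ∑ r ∈ D.primeFactors, F r =
      ∑ r : D.primeFactors, F r := fun g F => (Finset.sum_coe_sort _ _).symm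
  constructor
  · intro h g h1 h2 p hp
    have h3 := h (fun r => g r) (fun p gp hgp => by
      obtain ⟨hp1, hp2⟩ := Finset.mem_filter.1 p.2
      have h4 := h1 p hp1 hp2
      rw [hgp hp1]
      have e1 : ext0 (S := S D) a p = a p := ext0_of (S := S D) a p
      rw [e1, hS g] at h4
      exact h4) (by
      rw [hS g] at h2
      rw [← h2]
      refine Finset.sum_congr rfl fun r _ => ?_
      rw [ext0_of]
      rfl)
    exact congrFun h3 ⟨p, hp⟩
  · intro h g h1 h2
    have h3 := h (ext0 g) (fun p hp hp1 => by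
      have h4 := h1 ⟨p, Finset.mem_filter.2 ⟨hp, hp1⟩⟩ (g ⟨p, hp⟩) (fun _ => rfl)
      have e1 : ext0 (S := S D) a p = a ⟨p, Finset.mem_filter.2 ⟨hp, hp1⟩⟩ :=
        ext0_of (S := S D) a ⟨p, Finset.mem_filter.2 ⟨hp, hp1⟩⟩
      have e2 : ext0 g p = g ⟨p, hp⟩ := ext0_of g ⟨p, hp⟩
      rw [hS (ext0 g), e1, e2, ← h4]
      refine Finset.sum_congr rfl fun r _ => ?_
      rw [ext0_of]
      rfl) (by
      rw [hS (ext0 g), ← h2]
      refine Finset.sum_congr rfl fun r _ => ?_
      rw [ext0_of, ext0_of]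
      rfl)
    funext r
    rw [← ext0_of g r]
    exact h3 r r.2

theorem c_eq (D : ℕ) : c D = (good D : ℝ) / 3 ^ (2 * (S1 D).card + 1) := by
  unfold c good
  have e : Nat.card {x : (S D → ZMod 3) × (D.primeFactors → ZMod 3) // Nonsingular D x.1 x.2} =
      Nat.card {x : (S1 D → ZMod 3) × (D.primeFactors → ZMod 3) //
        NSg D (ext0 x.1) (ext0 x.2)} :=
    Nat.card_congr (Equiv.subtypeEquivRight fun x => nonsingular_iff D x.1 x.2)
  rw [e]
  rfl

end proof

open Pool.Agent.U687.PT in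
theorem result (D : ℕ) (hD : Family D) (j : ℕ) (hj : j = 1 ∨ j = 4 ∨ j = 7)
    (h1 : (D * j) % 9 ≠ 1) (h8 : (D * j) % 9 ≠ 8) :
    (∀ l : ℕ, l.Prime → l % 9 = j → ¬ l ∣ D → IsGloballyMinimal (W (D * l)) ∧
      (∃ u : ℂ, Quotient (D * l) u ∧ Integral3 u ∧ (Unit3 u ↔ Trivial3 (D * l))) ∧
      (One3 (D * l) ∨ Other3 (D * l)) ∧ ¬ (One3 (D * l) ∧ Other3 (D * l))) ∧
    Tendsto (fun X : ℕ => (count j (fun l => One3 (D * l)) X : ℝ) / (count j (fun _ => True) X : ℝ))
      atTop (nhds (c D)) ∧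
    (2 / 3 : ℝ) ^ ((S D).card + 1) ≤ c D ∧ c D ≤ 2 / 3 := by
  refine ⟨fun l hl hlj hlD => ?_, ?_, ?_, ?_⟩
  · have hC := cls hD hj h1 h8 hl hlj hlD
    obtain ⟨h2, h3⟩ := kinds hC
    refine ⟨h2, h3, ?_, ?_⟩
    · rw [one_trivial hC, other_iff hC]
      exact em _
    · rw [one_trivial hC, other_iff hC]
      exact fun h => h.2 h.1
  · rw [c_eq]
    refine (law (bs hD) hj (fun l => One3 (D * l)) fun l hl hlD hlj =>
      one_iff (cls hD hj h1 h8 hl hlj hlD)).congr fun X => ?_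
    unfold count
    simp only [and_true]
  · rw [c_eq, le_div_iff₀ (by positivity)]
    have h2 : ((2 ^ ((S1 D).card + 1) * 3 ^ (S1 D).card : ℕ) : ℝ) ≤ (good D : ℝ) := by
      exact_mod_cast good_ge (bs hD)
    refine le_trans (le_of_eq ?_) h2
    have e : (S D).card = (S1 D).card := rfl
    rw [e, div_pow]
    push_cast
    have e2 : (3 : ℝ) ^ (2 * (S1 D).card + 1) = 3 ^ ((S1 D).card + 1) * 3 ^ (S1 D).card := by
      rw [← pow_add]
      congr 1
      ring
    rw [e2]
    field_simp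
  · rw [c_eq, div_le_iff₀ (by positivity)]
    have h2 : (good D : ℝ) ≤ ((2 * 3 ^ (2 * (S1 D).card) : ℕ) : ℝ) := by
      exact_mod_cast good_le (bs hD)
    refine le_trans h2 (le_of_eq ?_)
    push_cast
    rw [pow_succ]
    ring

end Pool.Agent.Results.MP_9c97e9_nt.ThreePartPrimeTwists
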