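import Pool.Agent.Results.MP_4a9ea6_nt.TwoPartTwistsX49
import Pool.Agent.U687.NO.Kind

/-!
# The 2-part of the Birch and Swinnerton-Dyer formula in the twists, by size, of EVERY twist of `X_0(49)`

`E_D : y² + x y = x³ - (3 D + 1) / 4 x² - 2 D² x - D³` is the quadratic twist by `D` of `X_0(49)`, for the
squarefree `D ≥ 1` with all prime factors `1` modulo `4` (inert or split in `ℚ(√-7)`, in any number).
Let `z = (L(E_D, 1) / Ω) / (∏ c_p / #E_D(ℚ)_tors²)`, the analytic order of `Ш(E_D/ℚ)`. The 2-part of the
formula holds with a unit (`TwoPart D`) if `L(E_D, 1) ≠ 0`, `E_D(ℚ)` is finite, `Ш(E_D/ℚ)[2^∞] = 0` and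
`z` is a unit at the primes above two; `D` is of the other kind (`Other D`) if `z` is integral and not a
unit at all the primes above two, and `E_D(ℚ)` is infinite or `Ш(E_D/ℚ)[2] ≠ 0`.

NOTHING is assumed on the member `D` one starts with: the rank, `Ш` and the analytic rank of `E_D` are
arbitrary. It is twisted by ALL the numbers `m ≤ X` prime to `D`, squarefree, with exactly `K` prime
factors, all `1` modulo `4`, in their natural order.

* For every `D`, `K ≥ 1` and `b ≤ K` the proportion of the `m` for which exactly `b` of the prime factors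
  split in `ℚ(√-7)` and the 2-part of the formula holds with a unit for `D m` tends to
  `(K choose b) / 2^K · share K b A`; here `share K b A` is the probability of the state zero, after `b`
  steps, of the Markov chain on `0, 1, 2, …` with the transitions `r → r - 1` with the probability
  `1 - 2^{-r}`, `r → r` with `2^{-r-1}`, `r → r + 1` with `2^{-r-1}`, started with the law of the corank of
  `A + diag v` for random `v` (`diagonalLaw`); for `b = K` it is the same after `K - 1` steps from the law
  of the corank of `A + diag v` bordered by `v` and a random corner (`borderLaw`). `A` is the matrix over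
  the field with two elements of the quadratic symbols between the prime factors of `D` and of the quartic
  symbols of `-7`. For the other kind the proportion tends to `(K choose b) / 2^K · (1 - share K b A)`.
* So among all the `m` with `K` prime factors the proportion tends to
  `total K A = ∑_b (K choose b) / 2^K · share K b A`. With `n` the number of the split prime factors of
  `D`, `total K A` is at least `2^{-(n + K)}` and it differs from `∏_{i ≥ 0} (1 - 2^{-(2i+1)}) = 0.4194...`
  by at most `∏_{i = 1}^n (2^i - 1) · (3/4)^{K - 1}`; it tends to `0.4194...` for `K → ∞`, for every `D`.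

Method. The criterion for one `D` is from the starting library (`MP_4a9ea6_nt.TwoPartTwistsX49`). New: the
function `m ↦` (the criterion for `D m`) of the ordered prime factors is expanded in products of signs of
symbols; a product in which a symbol between two of the variable primes occurs has the mean zero, by a
bilinear estimate for the Jacobi symbol over the hyperbola `p q ≤ Z`, cut in short blocks; the others are
treated by the means over the primes. The limit is identified with the iterated limit, which is the law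
of the Markov chain. The tuples with a prime below a power of `log X`, with a repeated prime or with a
prime factor of `D` are negligible by upper and lower bounds of the right order for the number of tuples.
-/

set_option autoImplicit false

open scoped Classical

namespace Pool.Agent.Results.MP_9c97e9_nt.TwistsWithKPrimeFactors

open Filter Matrix Topology
open Pool.Agent.TH841.NF.D (Sha)
open Pool.Agent.Results.MP_4a9ea6_nt.TwoPartTwistsX49 (E anOrder TwoPart)

/-- The class: `D` is squarefree and all its prime factors are `1` modulo `4`. -/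
def Family (D : ℕ) : Prop := Squarefree D ∧ ∀ p ∈ D.primeFactors, p % 4 = 1

/-- The other kind: `E_D(ℚ)` is infinite or `Ш(E_D/ℚ)` has an element of order two; `L(E_D, s)` has the
entire continuation `Λ`, and the analytic order of `Ш` is integral and not a unit at two:
`v (anOrder D (Λ 1)) < 1` for all valuations `v` of `ℂ` above two. -/
def Other (D : ℕ) : Prop :=
  ¬ (Finite (E D).toAffine.Point ∧ ∀ x : Sha (E D), 2 • x = 0 → x = 0) ∧
  ∃ Λ : ℂ → ℂ, Differentiable ℂ Λ ∧ (∀ s : ℂ, 2 < s.re → Λ s = (E D).LSeries s) ∧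
    ∀ (Γ : Type) [LinearOrderedCommGroupWithZero Γ] (v : Valuation ℂ Γ), v 2 < 1 →
      v (anOrder D (Λ 1)) < 1

/-- The squarefree `m ≤ X` prime to `D` with exactly `K` prime factors, all `1` modulo `4`. -/
noncomputable def multipliers (K D X : ℕ) : Finset ℕ :=
  (Finset.Icc 1 X).filter fun m => Squarefree m ∧ m.primeFactors.card = K ∧
    (∀ p ∈ m.primeFactors, p % 4 = 1) ∧ Nat.Coprime m D

/-- The share of the `m` with the property `Q` among them. -/
noncomputable def proportion (K D : ℕ) (Q : ℕ → Prop) (X : ℕ) : ℝ :=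
  (((multipliers K D X).filter Q).card : ℝ) / ((multipliers K D X).card : ℝ)

/-- The prime factors of `D` which split in `ℚ(√-7)`. -/
noncomputable def splitPrimes (D : ℕ) : Finset ℕ :=
  D.primeFactors.filter fun p => IsSquare (-7 : ZMod p)

/-- `P` enumerates the prime factors of `D` which split in `ℚ(√-7)`. -/
def IsEnumeration (D n : ℕ) (P : Fin n → ℕ) : Prop :=
  Function.Injective P ∧ splitPrimes D = Finset.univ.image P

/-- `1` if `m` is not a square modulo `p`, and `0` if it is. -/
noncomputable def nonsq (p m : ℕ) : ZMod 2 := if IsSquare (m : ZMod p) then 0 else 1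

/-- `1` if `-7` is not a fourth power modulo `p`, and `0` if it is. -/
noncomputable def nonfourth (p : ℕ) : ZMod 2 := if ∃ y : ZMod p, y ^ 4 = -7 then 0 else 1

/-- The matrix of the symbols. -/
noncomputable def symbols (D : ℕ) {n : ℕ} (P : Fin n → ℕ) : Matrix (Fin n) (Fin n) (ZMod 2) :=
  Matrix.of fun i j =>
    if i = j then nonfourth (P i) + ∑ l ∈ D.primeFactors.erase (P i), nonsq (P i) l
    else nonsq (P i) (P j)

/-- The matrix `M` with the border `b` and the corner `d`. -/
def bordered {n : ℕ} (M : Matrix (Fin n) (Fin n) (ZMod 2)) (d : ZMod 2) (b : Fin n → ZMod 2) :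
    Matrix (Fin (n + 1)) (Fin (n + 1)) (ZMod 2) :=
  Matrix.of (Fin.cons (Fin.cons d b) fun i => Fin.cons (b i) (M i))

/-- The share of the `v` for which the corank of `A + diag v` is `r`. -/
noncomputable def diagonalLaw {n : ℕ} (A : Matrix (Fin n) (Fin n) (ZMod 2)) (r : ℕ) : ℝ :=
  (Nat.card {v : Fin n → ZMod 2 // (A + diagonal v).rank + r = n} : ℝ) / 2 ^ n

/-- The share of the pairs `(v, d)` for which the corank of `A + diag v`, with the border `v` and the
corner `d`, is `r`. -/
noncomputable def borderLaw {n : ℕ} (A : Matrix (Fin n) (Fin n) (ZMod 2)) (r : ℕ) : ℝ :=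
  (Nat.card {x : (Fin n → ZMod 2) × ZMod 2 //
    (bordered (A + diagonal x.1) x.2 x.1).rank + r = n + 1} : ℝ) / 2 ^ (n + 1)

/-- One step of the Markov chain. -/
noncomputable def markov (μ : ℕ → ℝ) (r : ℕ) : ℝ :=
  (1 - (1 / 2) ^ (r + 1)) * μ (r + 1) + (1 / 2) ^ (r + 1) * μ r +
    (if r = 0 then 0 else (1 / 2) ^ r * μ (r - 1))

/-- The probability of zero after `K` primes, `b` of them split. -/
noncomputable def share (K b : ℕ) {n : ℕ} (A : Matrix (Fin n) (Fin n) (ZMod 2)) : ℝ :=
  if b = K then markov^[K - 1] (borderLaw A) 0 else markov^[b] (diagonalLaw A) 0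

/-- The probability of zero after `K` primes, each one split with the probability `1/2`. -/
noncomputable def total (K : ℕ) {n : ℕ} (A : Matrix (Fin n) (Fin n) (ZMod 2)) : ℝ :=
  ∑ b ∈ Finset.range (K + 1), (K.choose b : ℝ) / 2 ^ K * share K b A

/-- `∏_{i ≥ 0} (1 - 2^{-(2i+1)}) = 0.4194...` -/
noncomputable def limit : ℝ := ∏' i : ℕ, (1 - (1 / 2 : ℝ) ^ (2 * i + 1))

section proof

open Pool.Agent.U687.Q2 Pool.Agent.U687.NO
open Pool.Agent.Results.MP_4a9ea6_nt.TwoPartTwistsX49 (core two_iff mat)

theorem multipliers_eq (K D X : ℕ) : multipliers K D X = Ms K D X := by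
  ext m
  rw [mem_Ms]
  unfold multipliers
  rw [Finset.mem_filter, Finset.mem_Icc]

theorem diagonalLaw_eq {n : ℕ} (A : Matrix (Fin n) (Fin n) (ZMod 2)) : diagonalLaw A = mu A :=
  funext fun r => (mu_share A r).symm

theorem borderLaw_eq {n : ℕ} (A : Matrix (Fin n) (Fin n) (ZMod 2)) : borderLaw A = nu A :=
  funext fun r => (nu_share A r).symm

theorem share_eq (K b : ℕ) {n : ℕ} (A : Matrix (Fin n) (Fin n) (ZMod 2)) : share K b A = qq K b A := by
  unfold share qq
  rw [diagonalLaw_eq, borderLaw_eq]
  rfl

theorem other_iff {D : ℕ} (h : Family D) : Other D ↔ ¬ (mat D).det ≠ 0 := by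
  obtain ⟨-, -, -, h4, -, -, Λ, h7, h8, -, h10, -⟩ := core h
  have h4' : (Finite (E D).toAffine.Point ∧ ∀ x : Sha (E D), 2 • x = 0 → x = 0) ↔
      (mat D).det ≠ 0 := by
    have h5 : (Finite (E D).toAffine.Point ∧ ∀ x : Sha (E D), 2 • x = 0 → x = 0) ↔
        (Finite (E D).toAffine.Point ∧ ∀ x : Sha (E D), x + x = 0 → x = 0) := by
      simp only [two_nsmul]
    exact h5.trans h4
  constructor
  · rintro ⟨h1, -⟩ h2
    exact h1 (h4'.2 h2)
  · intro h1
    refine ⟨fun h2 => h1 (h4'.1 h2), Λ, h7, h8, fun Γ _ v hv => ?_⟩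
    obtain ⟨h11, h12⟩ := h10 Γ v hv
    exact lt_of_le_of_ne h11 fun h13 => h1 (h12.1 h13)

/-- the indicator of a property -/
noncomputable def ind (Q : ℕ → Prop) (D : ℕ) : ℝ := if Q D then 1 else 0

theorem two_val (D n : ℕ) (P : Fin n → ℕ) (h : Family D) (hP : En D n P) :
    ind TwoPart D = uw 1 0 (cor (MM D P)) := by
  unfold ind uw
  have h1 : TwoPart D ↔ cor (MM D P) = 0 := by
    rw [cor_zero_iff, ← det_MM hP]
    exact two_iff h
  by_cases h2 : TwoPart D
  · rw [if_pos h2, if_pos (h1.1 h2)]
  · rw [if_neg h2, if_neg fun h3 => h2 (h1.2 h3)]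

theorem other_val (D n : ℕ) (P : Fin n → ℕ) (h : Family D) (hP : En D n P) :
    ind Other D = uw 0 1 (cor (MM D P)) := by
  unfold ind uw
  have h1 : Other D ↔ ¬ cor (MM D P) = 0 := by
    rw [cor_zero_iff, ← det_MM hP]
    exact other_iff h
  by_cases h2 : Other D
  · rw [if_pos h2, if_neg (h1.1 h2)]
  · rw [if_neg h2, if_pos (by
      by_contra h3
      exact h2 (h1.2 h3))]

theorem prop_eq (K D X : ℕ) (Q : ℕ → Prop) :
    proportion K D (fun m => Q (D * m)) X =
      (∑ m ∈ Ms K D X, ind Q (D * m)) / ((Ms K D X).card : ℝ) := by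
  unfold proportion
  rw [multipliers_eq, card_as_sum, Finset.sum_filter]
  rfl

theorem prop_eq2 (K D X b : ℕ) (Q : ℕ → Prop) :
    proportion K D (fun m => (splitPrimes m).card = b ∧ Q (D * m)) X =
      (∑ m ∈ Ms K D X, (if spn m = b then (1 : ℝ) else 0) * ind Q (D * m)) /
        ((Ms K D X).card : ℝ) := by
  unfold proportion
  rw [multipliers_eq, card_as_sum, Finset.sum_filter]
  congr 1
  refine Finset.sum_congr rfl fun m _ => ?_
  have e : spn m = (splitPrimes m).card := rfl
  rw [e]
  unfold ind
  by_cases h1 : (splitPrimes m).card = b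
  · by_cases h2 : Q (D * m)
    · rw [if_pos ⟨h1, h2⟩, if_pos h1, if_pos h2, mul_one]
    · rw [if_neg fun h => h2 h.2, if_neg h2, mul_zero]
  · rw [if_neg fun h => h1 h.1, if_neg h1, zero_mul]

end proof

open Pool.Agent.U687.Q2 Pool.Agent.U687.NO in
/-- **The 2-part of the formula in the twists by the numbers with `K` prime factors, by size.** -/
theorem result :
    (∀ D : ℕ, Family D → ((TwoPart D ∨ Other D) ∧ ¬ (TwoPart D ∧ Other D)) ∧
      ∃ P, IsEnumeration D (splitPrimes D).card P) ∧
    (∀ (D n K : ℕ) (P : Fin n → ℕ), Family D → IsEnumeration D n P → 1 ≤ K →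
      (∀ᶠ X in atTop, (multipliers K D X).Nonempty) ∧
      (∀ b ≤ K,
        Tendsto (proportion K D fun m => (splitPrimes m).card = b ∧ TwoPart (D * m)) atTop
          (𝓝 ((K.choose b : ℝ) / 2 ^ K * share K b (symbols D P))) ∧
        Tendsto (proportion K D fun m => (splitPrimes m).card = b ∧ Other (D * m)) atTop
          (𝓝 ((K.choose b : ℝ) / 2 ^ K * (1 - share K b (symbols D P)))) ∧
        (1 / 2 : ℝ) ^ (n + b + 1) ≤ share K b (symbols D P) ∧
        |share K b (symbols D P) - limit| ≤
          (∏ i ∈ Finset.range n, ((2 : ℝ) ^ (i + 1) - 1)) * (1 / 2) ^ min b (K - 1)) ∧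
      Tendsto (proportion K D fun m => TwoPart (D * m)) atTop (𝓝 (total K (symbols D P))) ∧
      Tendsto (proportion K D fun m => Other (D * m)) atTop (𝓝 (1 - total K (symbols D P))) ∧
      (1 / 2 : ℝ) ^ (n + K) ≤ total K (symbols D P) ∧
      |total K (symbols D P) - limit| ≤
        (∏ i ∈ Finset.range n, ((2 : ℝ) ^ (i + 1) - 1)) * (3 / 4) ^ (K - 1)) ∧
    (∀ (D n : ℕ) (P : Fin n → ℕ), Family D → IsEnumeration D n P →
      Tendsto (fun K => total K (symbols D P)) atTop (𝓝 limit)) ∧
    (0.4194 : ℝ) < limit ∧ limit < 0.4195 := by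
  have h2 : ∀ (D n K : ℕ) (P : Fin n → ℕ), Family D → IsEnumeration D n P → 1 ≤ K →
      (∀ᶠ X in atTop, (multipliers K D X).Nonempty) ∧
      (∀ b ≤ K,
        Tendsto (proportion K D fun m => (splitPrimes m).card = b ∧ TwoPart (D * m)) atTop
          (𝓝 ((K.choose b : ℝ) / 2 ^ K * share K b (symbols D P))) ∧
        Tendsto (proportion K D fun m => (splitPrimes m).card = b ∧ Other (D * m)) atTop
          (𝓝 ((K.choose b : ℝ) / 2 ^ K * (1 - share K b (symbols D P)))) ∧
        (1 / 2 : ℝ) ^ (n + b + 1) ≤ share K b (symbols D P) ∧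
        |share K b (symbols D P) - limit| ≤
          (∏ i ∈ Finset.range n, ((2 : ℝ) ^ (i + 1) - 1)) * (1 / 2) ^ min b (K - 1)) ∧
      Tendsto (proportion K D fun m => TwoPart (D * m)) atTop (𝓝 (total K (symbols D P))) ∧
      Tendsto (proportion K D fun m => Other (D * m)) atTop (𝓝 (1 - total K (symbols D P))) ∧
      (1 / 2 : ℝ) ^ (n + K) ≤ total K (symbols D P) ∧
      |total K (symbols D P) - limit| ≤
        (∏ i ∈ Finset.range n, ((2 : ℝ) ^ (i + 1) - 1)) * (3 / 4) ^ (K - 1) := by
    intro D n K P hD hP hK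
    obtain ⟨k, rfl⟩ : ∃ k, K = k + 1 := ⟨K - 1, by omega⟩
    have hP' : En D n P := hP
    have hA : (MM D P).IsSymm := MM_symm hD hP'
    have hS : symbols D P = MM D P := rfl
    rw [hS]
    have hL : limit = lim2 := rfl
    have htot : total (k + 1) (MM D P) =
        Pool.Agent.U687.Q2.chain (fun _ => wt 2) k (mu (MM D P)) (nu (MM D P)) 0 := by
      have h3 := (law_total (ind TwoPart) 1 0 two_val hD hP' k).2
      unfold total
      simp only [share_eq]
      rw [sub_zero, zero_add, one_mul] at h3
      rw [← h3]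
      refine Finset.sum_congr rfl fun b _ => ?_
      ring
    refine ⟨?_, fun b hb => ⟨?_, ?_, ?_⟩, ?_, ?_, ?_⟩
    · filter_upwards [(law_m (ind TwoPart) 1 0 two_val hD hP' k).1] with X hX
      rw [multipliers_eq]
      exact Finset.card_pos.1 hX
    · have h3 := law_mb (ind TwoPart) 1 0 two_val hD hP' k b
      rw [share_eq]
      rw [sub_zero, zero_add, one_mul] at h3
      refine h3.congr fun X => ?_
      rw [prop_eq2]
    · have h3 := law_mb (ind Other) 0 1 other_val hD hP' k b
      rw [share_eq]
      have e : (1 : ℝ) + (0 - 1) * qq (k + 1) b (MM D P) = 1 - qq (k + 1) b (MM D P) := by ring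
      rw [e] at h3
      refine h3.congr fun X => ?_
      rw [prop_eq2]
    · rw [share_eq, hL]
      exact qq_facts hA (k + 1) b hK hb
    · have h3 := (law_total (ind TwoPart) 1 0 two_val hD hP' k)
      rw [htot]
      rw [h3.2, sub_zero, zero_add, one_mul] at h3
      refine h3.1.congr fun X => ?_
      rw [prop_eq]
    · have h3 := (law_total (ind Other) 0 1 other_val hD hP' k)
      rw [htot]
      rw [h3.2] at h3
      have e : (1 : ℝ) + (0 - 1) * Pool.Agent.U687.Q2.chain (fun _ => wt 2) k (mu (MM D P))
          (nu (MM D P)) 0 = 1 - Pool.Agent.U687.Q2.chain (fun _ => wt 2) k (mu (MM D P))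
          (nu (MM D P)) 0 := by ring
      rw [e] at h3
      refine h3.1.congr fun X => ?_
      rw [prop_eq]
    · rw [htot, hL]
      have h3 := chain_facts (fun _ => 2) k hA
      have e : ∏ i ∈ Finset.range k, (1 - wt 2 / 2) = (3 / 4 : ℝ) ^ k := by
        rw [Finset.prod_const, Finset.card_range]
        congr 1
        unfold wt
        rw [if_neg (by decide), if_neg (by decide)]
        norm_num
      rw [e] at h3
      have e2 : n + (k + 1) = n + 1 + k := by omega
      rw [e2, Nat.add_sub_cancel]
      exact h3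
  refine ⟨fun D hD => ⟨?_, ?_⟩, h2, fun D n P hD hP => ?_, lim2_facts.2.2.2.1, lim2_facts.2.2.2.2⟩
  · have h1 : TwoPart D ↔ (Pool.Agent.Results.MP_4a9ea6_nt.TwoPartTwistsX49.mat D).det ≠ 0 :=
      Pool.Agent.Results.MP_4a9ea6_nt.TwoPartTwistsX49.two_iff hD
    rw [h1, other_iff hD]
    exact ⟨em _, fun h => h.2 h.1⟩
  · obtain ⟨P, hP⟩ := exists_en D
    exact ⟨P, hP⟩
  · have h3 : Tendsto (fun K : ℕ => (∏ i ∈ Finset.range n, ((2 : ℝ) ^ (i + 1) - 1)) *
        (3 / 4) ^ (K - 1)) atTop (𝓝 0) := by
      have h4 := (tendsto_pow_atTop_nhds_zero_of_lt_one (by norm_num : (0 : ℝ) ≤ 3 / 4)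
        (by norm_num)).comp (tendsto_sub_atTop_nat 1)
      have h5 := h4.const_mul (∏ i ∈ Finset.range n, ((2 : ℝ) ^ (i + 1) - 1))
      rw [mul_zero] at h5
      exact h5
    rw [tendsto_iff_norm_sub_tendsto_zero]
    refine squeeze_zero' (Eventually.of_forall fun K => norm_nonneg _) ?_ h3
    filter_upwards [eventually_ge_atTop 1] with K hK
    exact (h2 D n K P hD hP hK).2.2.2.2.2

end Pool.Agent.Results.MP_9c97e9_nt.TwistsWithKPrimeFactors
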