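import Pool.Agent.U621.X20.Cls

/-!
# The 2-part of the Birch and Swinnerton-Dyer formula for twists of the isogeny class of `X_0(20)`

The curve `E_1 : y² = x³ - 11 x² - x` has conductor `20` and no complex multiplication; its quadratic twist by
`D` is `E_D : y² = x³ - 11 D x² - D² x`. Let `D ≡ 1 mod 4` (positive or negative) be a squarefree product of
primes `≡ 3, 7 mod 20`, i.e. of primes which are inert both in `ℚ(√5)` and in `ℚ(i)`, the 2-division fields of
`E_1` and of the 2-isogenous curve. Nothing else is assumed on `D`; in particular there is no condition on the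
behaviour of the primes `2` and `5` of bad reduction in `ℚ(√D)`. For all these `D` everything which enters the
formula `L(E, 1) = #Ш Ω ∏ c_p / #E(ℚ)²` is determined as far as the prime `2` is concerned, unconditionally:
`L(E_D, 1) ≠ 0`, `E_D(ℚ)` is finite (of order `2` times an odd number), the 2-primary part of `Ш(E_D/ℚ)` is
zero, and the analytic order `L(E_D, 1) #E_D(ℚ)² / (Ω ∏ c_p)` of `Ш` is a quotient of two odd integers.

The number of distinct prime factors of `D` is arbitrary; `L(E_D, 1)/Ω` and `∏ c_p` are divisible by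
arbitrarily high powers of `2`.

Components: the library `Pool.Agent.Y695` (starting files; there not put together and not handed in): modular
symbols of level `20`, the congruence for the twisted sums, the 2-descent, the Tamagawa numbers, the periods.
The assembly: `Pool.Agent.U621.X20`.
-/

set_option autoImplicit false

open scoped Classical

namespace Pool.Agent.Results.MP_9c97e9_nt.TwoPartTwistsX20

open Pool.Agent.Y695 Pool.Agent.TH344.SH

/-- the curve `y² = x³ - 11 D x² - D² x`, the quadratic twist by `D` of the curve `y² = x³ - 11 x² - x` of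
conductor `20` -/
def E (D : ℤ) : WeierstrassCurve ℤ := ⟨0, -11 * D, 0, -D ^ 2, 0⟩

/-- `D ≡ 1 mod 4`, positive or negative, is squarefree, with all its prime factors `≡ 3, 7 mod 20` -/
def Inert (D : ℤ) : Prop :=
  Squarefree D ∧ D % 4 = 1 ∧ ∀ p : ℕ, p.Prime → (p : ℤ) ∣ D → p % 20 = 3 ∨ p % 20 = 7

/-- **The 2-part of the formula of Birch and Swinnerton-Dyer for the twists `E_D`.**
Let `D` be as in `Inert`. Then the equation of `E_D` is globally minimal; `E_D` is the twist of a curve without
complex multiplication (its invariant `j = 2¹⁴ 31³ / 5³` is not an integer); the group `E_D(ℚ)` is finite and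
its order is `2` times an odd number; the Tate-Shafarevich group has no element of order a power of `2` besides
`0`; the `L`-series of `E_D` extends to an entire function `Λ` with `Λ(1) ≠ 0`, and
`b · #E_D(ℚ)² Λ(1) = a · Ω ∏_p c_p` for two odd integers `a`, `b`, where `Ω` is the real period and the `c_p`
are the Tamagawa numbers. -/
theorem result (D : ℤ) (hD : Inert D) :
    W97.MT.IsGloballyMinimal (E D) ∧
    (E D).c₄ ^ 3 * 5 ^ 3 = 2 ^ 14 * 31 ^ 3 * (E D).Δ ∧
    Finite (EQ (E D)).toAffine.Point ∧
    (∃ k : ℕ, Odd k ∧ Nat.card (EQ (E D)).toAffine.Point = 2 * k) ∧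
    (∀ (n : ℕ) (c : Sha (EQ (E D))), 2 ^ n • c = 0 → c = 0) ∧
    ∃ Λ : ℂ → ℂ, IsLFun (E D) Λ ∧ Λ 1 ≠ 0 ∧ ∃ a b : ℤ, Odd a ∧ Odd b ∧
      b * ((Nat.card (EQ (E D)).toAffine.Point : ℂ) ^ 2 * Λ 1) = a * (Om (E D) * tamProd (E D)) := by
  obtain ⟨h1, h2, h3⟩ := hD
  obtain ⟨hmin, ⟨hfin, hk⟩, hsha, Λ, hL, hL1, a, b, ha, hb, hab⟩ := U621.X20.inert h1 h2 h3
  refine ⟨hmin, ?_, hfin, hk, hsha, Λ, hL, hL1, a, b, ha, hb, ?_⟩
  · have h4 : (E D).Δ = 2000 * D ^ 6 := disc_ED D
    rw [h4]
    simp only [WeierstrassCurve.c₄, WeierstrassCurve.b₂, WeierstrassCurve.b₄, E]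
    ring
  · exact (mul_comm _ _).trans hab

end Pool.Agent.Results.MP_9c97e9_nt.TwoPartTwistsX20
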